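import Mathlib
import Pool.Agent.H5.EulerFrozen
import Pool.Agent.H5.ThetaFE
import Pool.Agent.H6.Transfer
import Pool.Agent.H6.QDensB

set_option autoImplicit false

open MeasureTheory

namespace Pool.Agent.Results.MP_553913_nt.HeatDensity

/-- `a_p = p - #{(x,y) mod p : y² = x³ + a x + b}`, for a prime `p` of good reduction. -/
def trace (a b : ℤ) (p : ℕ) : ℤ :=
  (p : ℤ) - ((((Finset.range p) ×ˢ (Finset.range p)).filter
    (fun xy : ℕ × ℕ => (p : ℤ) ∣ (xy.2 : ℤ) ^ 2 - ((xy.1 : ℤ) ^ 3 + a * (xy.1 : ℤ) + b))).card : ℤ)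

/-- `F` is entire and equal, for `Re s > 3/2`, to the Euler product of `y² = x³ + a x + b` over the
primes not dividing `2(4a³+27b²)`. -/
def IsLFunction (a b : ℤ) (F : ℂ → ℂ) : Prop :=
  Differentiable ℂ F ∧ ∀ s : ℂ, 3 / 2 < s.re →
    F s = ∏' p : {p : ℕ // p.Prime ∧ ¬ ((p : ℤ) ∣ 2 * (4 * a ^ 3 + 27 * b ^ 2))},
      (1 - (trace a b p.1 : ℂ) * (p.1 : ℂ) ^ (-s) + (p.1 : ℂ) * (p.1 : ℂ) ^ (-2 * s))⁻¹

/-- The completed function `N^{s/2} (2π)^{-s} Γ(s) F(s)`. -/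
noncomputable def completed (N : ℝ) (F : ℂ → ℂ) (s : ℂ) : ℂ :=
  (N : ℂ) ^ (s / 2) * ((2 * Real.pi : ℝ) : ℂ) ^ (-s) * Complex.Gamma s * F s

/-- The heat flow `Λ_t(s) = (4πt)^{-1/2} ∫ Λ(s+v) exp(-v²/(4t)) dv` applied to the completed
function `Λ(s) = N^{s/2} (2π)^{-s} Γ(s) F(s)`. -/
noncomputable def heatFlow (N : ℝ) (F : ℂ → ℂ) (t : ℝ) (s : ℂ) : ℂ :=
  (((4 * Real.pi * t) ^ (-(1 / 2 : ℝ)) : ℝ) : ℂ) *
    ∫ v : ℝ, completed N F (s + v) * ((Real.exp (-(v ^ 2 / (4 * t))) : ℝ) : ℂ)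

/-- The conductor of `y² = x³ - d² x`, `d` squarefree. -/
def conductor (d : ℕ) : ℕ := if Even d then 16 * d ^ 2 else 32 * d ^ 2

/-- All zeros of the heat flows `Λ_t`, `τ ≤ t ≤ 1/8`, of height between `m` and `m + 1` lie on the
line `Re s = 1` and are simple. -/
def AllOnLine (N : ℝ) (F : ℂ → ℂ) (τ : ℝ) (m : ℕ) : Prop :=
  ∀ t : ℝ, τ ≤ t → t ≤ 1 / 8 → ∀ s : ℂ, (m : ℝ) ≤ s.im → s.im ≤ m + 1 →
    heatFlow N F t s = 0 → s.re = 1 ∧ deriv (heatFlow N F t) s ≠ 0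

theorem result :
    ∀ d : ℕ, Squarefree d →
      (∃ F : ℂ → ℂ, IsLFunction (-(d : ℤ) ^ 2) 0 F) ∧
      ∀ F : ℂ → ℂ, IsLFunction (-(d : ℤ) ^ 2) 0 F →
      ∃ C : ℝ, ∀ T τ : ℝ, 2 ≤ T → 0 < τ → τ ≤ 1 / Real.log T →
        ({m : ℕ | (m : ℝ) ≤ T ∧ ¬ AllOnLine (conductor d) F τ m}.ncard : ℝ) ≤
          C * T * Real.log T ^ 10 * Real.exp (-(τ * Real.log T ^ 2 / (4 * 10 ^ 6))) := by
  classical
  intro d hd
  have key : ∃ (M : ℝ) (Λ : ℂ → ℂ) (w : ℂ),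
      H6.FEData M Λ (H5.Lser d) w ∧
      (∀ s : ℂ, 3 / 2 < s.re → Λ s = (M : ℂ) ^ s * Complex.Gamma s * H5.Lser d s) ∧
      M = √(conductor d : ℝ) / (2 * Real.pi) ∧ (0:ℝ) < (conductor d : ℝ) ∧ H6.EdData d M Λ := by
    have hd0 : 0 < d := Nat.pos_of_ne_zero hd.ne_zero
    have hN0 : (0:ℝ) < (conductor d : ℝ) := by
      unfold conductor
      split_ifs <;> (push_cast; positivity)
    obtain ⟨w, hw, hfe⟩ := H5.Th_fe d hd
    have hQ : ((H5.Q d : ℕ) : ℝ) = (conductor d : ℝ) / 4 := by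
      unfold H5.Q conductor
      split_ifs <;> (push_cast; ring)
    have hQ0 : (0:ℝ) < ((H5.Q d : ℕ) : ℝ) := by rw [hQ]; positivity
    obtain ⟨Λ, D, hΛ⟩ := H6.exists_FEData (d : ℤ) hQ0 hw hfe
    refine ⟨_, Λ, (w : ℂ), D, hΛ, ?_, hN0, ⟨H6.exists_ThData hd, D.diff, hΛ⟩⟩
    rw [hQ, Real.sqrt_div' _ (by norm_num : (0:ℝ) ≤ 4)]
    have : √(4:ℝ) = 2 := by
      rw [show (4:ℝ) = 2 ^ 2 by norm_num, Real.sqrt_sq (by norm_num)]
    rw [this]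
    field_simp
  obtain ⟨M, Λ, w, D, hΛ, hMN, hN0, E⟩ := key
  have hG : IsLFunction (-(d : ℤ) ^ 2) 0 (H6.divGamma M Λ) := by
    refine ⟨H6.differentiable_divGamma D.M_pos D.diff, ?_⟩
    intro s hs
    rw [H6.divGamma_eq D.M_pos (by linarith) (hΛ s hs)]
    exact (H5.frozen_euler (d : ℤ) hs).tprod_eq.symm
  refine ⟨⟨_, hG⟩, ?_⟩
  intro F hF
  obtain ⟨C, hC⟩ := H6.density_nat D hΛ E
  refine ⟨max C 0, ?_⟩
  intro T τ hT hτ0 hτ1
  have hM0 : 0 < M := D.M_pos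
  have hFG : F = H6.divGamma M Λ := by
    apply H6.eq_of_eq_halfplane hF.1 hG.1 (a := 3 / 2)
    intro z hz
    rw [hF.2 z hz, hG.2 z hz]
  have hheat : ∀ t : ℝ, heatFlow (conductor d) F t =
      fun z => (((4 * Real.pi * t) ^ (-(1 / 2 : ℝ)) : ℝ) : ℂ) * H6.heatInt t Λ z := by
    intro t
    funext z
    unfold heatFlow
    congr 1
    apply H6.heat_congr hM0 Λ
    intro u
    unfold completed
    rw [hFG, H6.cpow_half hN0, ← hMN]
  have hlog : 0 < Real.log T := Real.log_pos (by linarith)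
  have hτ1' : τ * Real.log T ≤ 1 := by rwa [le_div_iff₀ hlog] at hτ1
  have hwin : ∀ m : ℕ, H6.GoodAt τ Λ m → AllOnLine (conductor d) F τ m := by
    intro m hm t ht ht8 s h1 h2 hs
    have ht0 : 0 < t := lt_of_lt_of_le hτ0 ht
    have hc : (((4 * Real.pi * t) ^ (-(1 / 2 : ℝ)) : ℝ) : ℂ) ≠ 0 := by
      have : (0:ℝ) < (4 * Real.pi * t) ^ (-(1 / 2 : ℝ)) := by positivity
      exact_mod_cast this.ne'
    rw [hheat] at hs ⊢
    have hs0 : H6.heatInt t Λ s = 0 := (mul_eq_zero.mp hs).resolve_left hc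
    obtain ⟨h3, h4⟩ := hm t ht ht8 s h1 h2 hs0
    refine ⟨h3, ?_⟩
    have hder := D.hasDerivAt_heatInt ht0 ht8 s
    rw [(hder.const_mul _).deriv]
    rw [hder.deriv] at h4
    exact mul_ne_zero hc h4
  have hmain := hC T τ hT hτ0 hτ1'
  have hfin : C * (T * Real.log T ^ 10 * Real.exp (-(H6.kap / 3 * (τ * Real.log T ^ 2)))) ≤
      max C 0 * T * Real.log T ^ 10 * Real.exp (-(τ * Real.log T ^ 2 / (4 * 10 ^ 6))) := by
    have hT0 : 0 < T := by linarith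
    have h1 : Real.exp (-(H6.kap / 3 * (τ * Real.log T ^ 2))) ≤
        Real.exp (-(τ * Real.log T ^ 2 / (4 * 10 ^ 6))) := by
      apply Real.exp_le_exp.mpr
      have hk : H6.kap = 1 / 1179648 := rfl
      have h2 : 0 ≤ τ * Real.log T ^ 2 := by positivity
      rw [hk]
      linarith
    calc C * (T * Real.log T ^ 10 * Real.exp (-(H6.kap / 3 * (τ * Real.log T ^ 2))))
        ≤ max C 0 * (T * Real.log T ^ 10 * Real.exp (-(τ * Real.log T ^ 2 / (4 * 10 ^ 6)))) := by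
          apply mul_le_mul (le_max_left _ _) _ (by positivity) (le_max_right _ _)
          gcongr
      _ = _ := by ring
  refine le_trans ?_ (hmain.trans hfin)
  have hsub : {m : ℕ | (m : ℝ) ≤ T ∧ ¬ AllOnLine (conductor d) F τ m} ⊆
      ↑((Finset.range (⌊T⌋₊ + 1)).filter (fun m => ¬ H6.GoodAt τ Λ m)) := by
    intro m hm
    obtain ⟨h1, h2⟩ := hm
    rw [Finset.coe_filter]
    refine ⟨?_, fun h => h2 (hwin m h)⟩
    rw [Finset.mem_range]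
    exact Nat.lt_succ_of_le (Nat.le_floor h1)
  have h1 := Set.ncard_le_ncard hsub (Finset.finite_toSet _)
  rw [Set.ncard_coe_finset] at h1
  exact_mod_cast h1

end Pool.Agent.Results.MP_553913_nt.HeatDensity
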