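import Mathlib
import Pool.Agent.H5.EulerFrozen
import Pool.Agent.H5.ThetaFE
import Pool.Agent.H6.Transfer
import Pool.Agent.H6.EdStrip

set_option autoImplicit false

open MeasureTheory

namespace Pool.Agent.Results.MP_553913_nt.HeatFlow

/-- `a_p = p - #{(x,y) mod p : y² = x³ + a x + b}`, for a prime `p` of good reduction. -/
def trace (a b : ℤ) (p : ℕ) : ℤ :=
  (p : ℤ) - ((((Finset.range p) ×ˢ (Finset.range p)).filter
    (fun xy : ℕ × ℕ => (p : ℤ) ∣ (xy.2 : ℤ) ^ 2 - ((xy.1 : ℤ) ^ 3 + a * (xy.1 : ℤ) + b))).card : ℤ)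

/-- `F` is entire and equal, for `Re s > 3/2`, to the Euler product of `y² = x³ + a x + b` over the
primes not dividing `2(4a³+27b²)`. -/
def IsLFunction (a b : ℤ) (F : ℂ → ℂ) : Prop :=
  Differentiable ℂ F ∧ ∀ s : ℂ, 3 / 2 < s.re →
    F s = ∏' p : {p : ℕ // p.Prime ∧ ¬ ((p : ℤ) ∣ 2 * (4 * a ^ 3 + 27 * b ^ 2))},
      (1 - (trace a b p.1 : ℂ) * (p.1 : ℂ) ^ (-s) + (p.1 : ℂ) * (p.1 : ℂ) ^ (-2 * s))⁻¹

/-- The completed function `N^{s/2} (2π)^{-s} Γ(s) F(s)`. -/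
noncomputable def completed (N : ℝ) (F : ℂ → ℂ) (s : ℂ) : ℂ :=
  (N : ℂ) ^ (s / 2) * ((2 * Real.pi : ℝ) : ℂ) ^ (-s) * Complex.Gamma s * F s

/-- The heat flow `Λ_t(s) = (4πt)^{-1/2} ∫ Λ(s+v) exp(-v²/(4t)) dv` applied to the completed
function `Λ(s) = N^{s/2} (2π)^{-s} Γ(s) F(s)`. -/
noncomputable def heatFlow (N : ℝ) (F : ℂ → ℂ) (t : ℝ) (s : ℂ) : ℂ :=
  (((4 * Real.pi * t) ^ (-(1 / 2 : ℝ)) : ℝ) : ℂ) *
    ∫ v : ℝ, completed N F (s + v) * ((Real.exp (-(v ^ 2 / (4 * t))) : ℝ) : ℂ)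

/-- The conductor of `y² = x³ - d² x`, `d` squarefree. -/
def conductor (d : ℕ) : ℕ := if Even d then 16 * d ^ 2 else 32 * d ^ 2

theorem result :
    (∀ d : ℕ, Squarefree d → ∃ F : ℂ → ℂ, IsLFunction (-(d : ℤ) ^ 2) 0 F) ∧
    ∀ ε : ℝ, 0 < ε → ∃ Q₀ : ℝ, (7 ≤ ε → Q₀ = 1) ∧
      ∀ d : ℕ, Squarefree d → ∀ F : ℂ → ℂ, IsLFunction (-(d : ℤ) ^ 2) 0 F →
      ∀ t : ℝ, 0 < t → t ≤ 1 / 8 → ∀ s : ℂ, heatFlow (conductor d) F t s = 0 →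
        Q₀ ≤ (conductor d : ℝ) * (1 + |s.im|) ^ 2 →
        (1 + ε ≤ t * Real.log ((conductor d : ℝ) * (1 + |s.im|) ^ 2) →
          s.re = 1 ∧ deriv (heatFlow (conductor d) F t) s ≠ 0) ∧
        (ε ≤ 1 → s.re ≠ 1 →
          2 * |s.re - 1| + t * Real.log ((conductor d : ℝ) * (1 + |s.im|) ^ 2) < 1 + ε) := by
  have key : ∀ d : ℕ, Squarefree d → ∃ (M : ℝ) (Λ : ℂ → ℂ) (w : ℂ),
      H6.FEData M Λ (H5.Lser d) w ∧
      (∀ s : ℂ, 3 / 2 < s.re → Λ s = (M : ℂ) ^ s * Complex.Gamma s * H5.Lser d s) ∧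
      M = √(conductor d : ℝ) / (2 * Real.pi) ∧ (0:ℝ) < (conductor d : ℝ) := by
    intro d hd
    have hd0 : 0 < d := Nat.pos_of_ne_zero hd.ne_zero
    have hN0 : (0:ℝ) < (conductor d : ℝ) := by
      unfold conductor
      split_ifs <;> (push_cast; positivity)
    obtain ⟨w, hw, hfe⟩ := H5.Th_fe d hd
    have hQ : ((H5.Q d : ℕ) : ℝ) = (conductor d : ℝ) / 4 := by
      unfold H5.Q conductor
      split_ifs <;> (push_cast; ring)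
    have hQ0 : (0:ℝ) < ((H5.Q d : ℕ) : ℝ) := by rw [hQ]; positivity
    obtain ⟨Λ, D, hΛ⟩ := H6.exists_FEData (d : ℤ) hQ0 hw hfe
    refine ⟨_, Λ, (w : ℂ), D, hΛ, ?_, hN0⟩
    rw [hQ, Real.sqrt_div' _ (by norm_num : (0:ℝ) ≤ 4)]
    have : √(4:ℝ) = 2 := by
      rw [show (4:ℝ) = 2 ^ 2 by norm_num, Real.sqrt_sq (by norm_num)]
    rw [this]
    field_simp
  have hLF : ∀ (d : ℕ) (M : ℝ) (Λ : ℂ → ℂ) (w : ℂ), H6.FEData M Λ (H5.Lser d) w →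
      (∀ s : ℂ, 3 / 2 < s.re → Λ s = (M : ℂ) ^ s * Complex.Gamma s * H5.Lser d s) →
      IsLFunction (-(d : ℤ) ^ 2) 0 (H6.divGamma M Λ) := by
    intro d M Λ w D hΛ
    refine ⟨H6.differentiable_divGamma D.M_pos D.diff, ?_⟩
    intro s hs
    rw [H6.divGamma_eq D.M_pos (by linarith) (hΛ s hs)]
    exact (H5.frozen_euler (d : ℤ) hs).tprod_eq.symm
  constructor
  · intro d hd
    obtain ⟨M, Λ, w, D, hΛ, _, _⟩ := key d hd
    exact ⟨_, hLF d M Λ w D hΛ⟩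
  intro ε hε
  obtain ⟨Q0, hQ07, hQ0, hQ1⟩ : ∃ Q0 : ℝ, (7 ≤ ε → Q0 = 1) ∧
      (∀ (d : ℤ) (M : ℝ) (Λ : ℂ → ℂ) (w : ℂ), H6.FEData M Λ (H5.Lser d) w →
      (∀ s : ℂ, 3 / 2 < s.re → Λ s = (M : ℂ) ^ s * Complex.Gamma s * H5.Lser d s) →
      ∀ t x : ℝ, 0 < t → t ≤ 1 / 8 → Q0 ≤ (2 * Real.pi * M) ^ 2 * (1 + |x|) ^ 2 →
      1 + ε ≤ t * Real.log ((2 * Real.pi * M) ^ 2 * (1 + |x|) ^ 2) → H6.FEData.Conc Λ t x) ∧
      (ε ≤ 1 → ∀ (d : ℤ) (M : ℝ) (Λ : ℂ → ℂ) (w : ℂ), H6.FEData M Λ (H5.Lser d) w →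
      (∀ s : ℂ, 3 / 2 < s.re → Λ s = (M : ℂ) ^ s * Complex.Gamma s * H5.Lser d s) →
      ∀ t x y : ℝ, 0 < t → t ≤ 1 / 8 → 0 ≤ y → Q0 ≤ (2 * Real.pi * M) ^ 2 * (1 + |x|) ^ 2 →
      1 + ε ≤ 2 * y + t * Real.log ((2 * Real.pi * M) ^ 2 * (1 + |x|) ^ 2) →
      H6.ConcAt Λ t x (y / (2 * t))) := by
    obtain ⟨Qa, hQa7, hQa⟩ := H6.exists_sharp hε
    by_cases hε1 : ε ≤ 1
    · obtain ⟨Qb, hQb⟩ := H6.exists_strip hε hε1
      refine ⟨max Qa Qb, fun h => absurd h (by linarith), ?_, ?_⟩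
      · intro d M Λ w D hΛ t x ht ht8 hQ h
        exact hQa d M Λ w D hΛ t x ht ht8 ((le_max_left _ _).trans hQ) h
      · intro _ d M Λ w D hΛ t x y ht ht8 hy hQ h
        exact hQb d M Λ w D hΛ t x y ht ht8 hy ((le_max_right _ _).trans hQ) h
    · exact ⟨Qa, hQa7, hQa, fun h => absurd h hε1⟩
  refine ⟨Q0, hQ07, ?_⟩
  intro d hd F hF t ht ht8 s hs hQs
  obtain ⟨M, Λ, w, D, hΛ, hMN, hN0⟩ := key d hd
  have hG := hLF d M Λ w D hΛ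
  have hM0 : 0 < M := D.M_pos
  have hMN2 : (2 * Real.pi * M) ^ 2 = (conductor d : ℝ) := by
    rw [hMN]
    have h1 : 2 * Real.pi * (√(conductor d : ℝ) / (2 * Real.pi)) = √(conductor d : ℝ) := by
      field_simp
    rw [h1, Real.sq_sqrt hN0.le]
  have hFG : F = H6.divGamma M Λ := by
    apply H6.eq_of_eq_halfplane hF.1 hG.1 (a := 3 / 2)
    intro z hz
    rw [hF.2 z hz, hG.2 z hz]
  have hheat : ∀ z, heatFlow (conductor d) F t z =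
      (((4 * Real.pi * t) ^ (-(1 / 2 : ℝ)) : ℝ) : ℂ) * H6.heatInt t Λ z := by
    intro z
    unfold heatFlow
    congr 1
    apply H6.heat_congr hM0 Λ
    intro u
    unfold completed
    rw [hFG, H6.cpow_half hN0, ← hMN]
  have hc : (((4 * Real.pi * t) ^ (-(1 / 2 : ℝ)) : ℝ) : ℂ) ≠ 0 := by
    have : (0:ℝ) < (4 * Real.pi * t) ^ (-(1 / 2 : ℝ)) := by positivity
    exact_mod_cast this.ne'
  have hs0 : H6.heatInt t Λ s = 0 := by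
    rw [hheat] at hs
    exact (mul_eq_zero.mp hs).resolve_left hc
  constructor
  · intro h1
    have hconc := hQ0 (d : ℤ) M Λ w D hΛ t s.im ht ht8 (by rw [hMN2]; exact hQs)
      (by rw [hMN2]; exact h1)
    refine ⟨D.zero_re_of_conc ht ht8 hs0 hconc, ?_⟩
    have hfun : heatFlow (conductor d) F t =
        fun z => (((4 * Real.pi * t) ^ (-(1 / 2 : ℝ)) : ℝ) : ℂ) * H6.heatInt t Λ z := funext hheat
    rw [hfun]
    have hder := D.hasDerivAt_heatInt ht ht8 s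
    rw [(hder.const_mul _).deriv]
    have := D.zero_simple_of_conc ht ht8 hs0 hconc
    rw [hder.deriv] at this
    exact mul_ne_zero hc this
  · intro hε1 hre
    by_contra hcon
    have hcon' := not_lt.mp hcon
    have hconc := hQ1 hε1 (d : ℤ) M Λ w D hΛ t s.im |s.re - 1| ht ht8 (abs_nonneg _)
      (by rw [hMN2]; exact hQs) (by rw [hMN2]; exact hcon')
    exact H6.heatInt_ne_zero_of_concAt D ht ht8 hre hconc hs0

end Pool.Agent.Results.MP_553913_nt.HeatFlow
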