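import Mathlib
import Pool.Agent.H5.JensenE
import Pool.Agent.H5.EdEuler
import Pool.Agent.H6.Transfer

set_option autoImplicit false

namespace Pool.Agent.Results.MP_553913_nt.JensenPolynomials

/-- `a_p = p - #{(x,y) mod p : y² = x³ + a x + b}`, for a prime `p` of good reduction. -/
def trace (a b : ℤ) (p : ℕ) : ℤ :=
  (p : ℤ) - ((((Finset.range p) ×ˢ (Finset.range p)).filter
    (fun xy : ℕ × ℕ => (p : ℤ) ∣ (xy.2 : ℤ) ^ 2 - ((xy.1 : ℤ) ^ 3 + a * (xy.1 : ℤ) + b))).card : ℤ)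

/-- `F` is entire and equal, for `Re s > 3/2`, to the Euler product of `y² = x³ + a x + b` over the
primes not dividing `2(4a³+27b²)`. -/
def IsLFunction (a b : ℤ) (F : ℂ → ℂ) : Prop :=
  Differentiable ℂ F ∧ ∀ s : ℂ, 3 / 2 < s.re →
    F s = ∏' p : {p : ℕ // p.Prime ∧ ¬ ((p : ℤ) ∣ 2 * (4 * a ^ 3 + 27 * b ^ 2))},
      (1 - (trace a b p.1 : ℂ) * (p.1 : ℂ) ^ (-s) + (p.1 : ℂ) * (p.1 : ℂ) ^ (-2 * s))⁻¹

/-- `Λ` is the entire function equal to `N^{s/2} (2π)^{-s} Γ(s) F(s)` for `Re s > 0`. -/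
def IsCompleted (N : ℕ) (F Λ : ℂ → ℂ) : Prop :=
  Differentiable ℂ Λ ∧ ∀ s : ℂ, 0 < s.re →
    Λ s = (N : ℂ) ^ (s / 2) * ((2 * Real.pi : ℝ) : ℂ) ^ (-s) * Complex.Gamma s * F s

/-- The conductor of `y² = x³ - d² x`, `d` squarefree. -/
def conductor (d : ℕ) : ℕ := if Even d then 16 * d ^ 2 else 32 * d ^ 2

/-- The Jensen polynomial `∑_{j ≤ D} binom(D,j) f^{(n+j)}(0) X^j` of degree `D` and shift `n` of
`f(z) = Λ(1 + i z)`. -/
noncomputable def jensen (Λ : ℂ → ℂ) (D n : ℕ) : Polynomial ℂ :=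
  ∑ j ∈ Finset.range (D + 1), Polynomial.C
    ((D.choose j : ℂ) * iteratedDeriv (n + j) (fun z => Λ (1 + Complex.I * z)) 0) * Polynomial.X ^ j

theorem result :
    (∀ d : ℕ, Squarefree d → ∃ F Λ : ℂ → ℂ, IsLFunction (-(d : ℤ) ^ 2) 0 F ∧
      IsCompleted (conductor d) F Λ) ∧
    ∀ ε : ℝ, 0 < ε → ∃ K : ℝ, ∀ d : ℕ, Squarefree d → ∀ F Λ : ℂ → ℂ,
      IsLFunction (-(d : ℤ) ^ 2) 0 F → IsCompleted (conductor d) F Λ →
      ∀ D n : ℕ, 1 ≤ D → (1 + ε) * Real.log ((conductor d : ℝ) * D) + K ≤ 4 * n →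
        jensen Λ D n ≠ 0 ∧ ∀ z : ℂ, (jensen Λ D n).eval z = 0 → z.im = 0 := by
  have hcond : ∀ d : ℕ, H5.cond d = conductor d := fun _ => rfl
  have hpos : ∀ d : ℕ, Squarefree d → (0:ℝ) < (conductor d : ℝ) := by
    intro d hd
    have hd0 : 0 < d := Nat.pos_of_ne_zero hd.ne_zero
    unfold conductor
    split_ifs <;> (push_cast; positivity)
  -- the entire functions
  have key : ∀ d : ℕ, Squarefree d → ∃ (w : ℝ) (F Λ : ℂ → ℂ),
      H5.EulerData (H5.cE d) (H5.eE d) (conductor d : ℝ) w F Λ ∧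
      IsLFunction (-(d : ℤ) ^ 2) 0 F ∧ IsCompleted (conductor d) F Λ := by
    intro d hd
    obtain ⟨w, L, Λ, D⟩ := H5.eulerData_E d hd
    rw [hcond] at D
    have hL : IsLFunction (-(d : ℤ) ^ 2) 0 L := by
      refine ⟨D.entire, fun s hs => ?_⟩
      rw [D.euler s hs, (H5.euler_E (d : ℤ) hs).tprod_eq]
      exact (H5.frozen_euler (d : ℤ) hs).tprod_eq.symm
    refine ⟨w, L, Λ, D, hL, D.entireΛ, ?_⟩
    intro s hs
    have hN0 := hpos d hd
    have hM0 : 0 < √(conductor d : ℝ) / (2 * Real.pi) := by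
      have := Real.pi_pos
      have := Real.sqrt_pos.2 hN0
      positivity
    have hLG : L = H6.divGamma (√(conductor d : ℝ) / (2 * Real.pi)) Λ := by
      apply H6.eq_of_eq_halfplane D.entire (H6.differentiable_divGamma hM0 D.entireΛ) (a := 3 / 2)
      intro z hz
      rw [H6.divGamma_eq hM0 (by linarith) (D.completed' hz)]
    have hG : Complex.Gamma s ≠ 0 := Complex.Gamma_ne_zero_of_re_pos hs
    have h1 := H6.mul_divGamma hM0 Λ hG
    rw [← hLG, ← H6.cpow_half hN0] at h1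
    rw [← h1]
    push_cast
    ring
  constructor
  · intro d hd
    obtain ⟨w, F, Λ, _, h1, h2⟩ := key d hd
    exact ⟨F, Λ, h1, h2⟩
  · intro ε hε
    obtain ⟨K, hK⟩ := H5.EulerData.jensen hε
    refine ⟨K, ?_⟩
    intro d hd F Λ hF hΛ D n hD hn
    obtain ⟨w, F₀, Λ₀, E, hF₀, hΛ₀⟩ := key d hd
    have e1 : F = F₀ := by
      apply H6.eq_of_eq_halfplane hF.1 hF₀.1 (a := 3 / 2)
      intro z hz
      rw [hF.2 z hz, hF₀.2 z hz]
    have e2 : Λ = Λ₀ := by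
      apply H6.eq_of_eq_halfplane hΛ.1 hΛ₀.1 (a := 0)
      intro z hz
      rw [hΛ.2 z hz, hΛ₀.2 z hz, e1]
    subst e2
    exact hK _ _ _ _ _ _ E D n hD hn

end Pool.Agent.Results.MP_553913_nt.JensenPolynomials
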